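import Mathlib

/-!
A CPET tree (maximum degree four, a connected partition of every type) in which no vertex of
degree four is adjacent to two leaves: the spider with legs of 15, 12, 2 and 1 vertices.
The file follows the formalisation of the 32-vertex spider in `MP_c14435_co.EvenCPET`.
-/

namespace Pool.Agent.Results.MP_6c5f5a_co.OneLeaf

open Finset

/-- `T` has a connected partition of type `m`: the vertex set can be partitioned into
blocks, each inducing a connected subgraph of `T`, whose sizes form the multiset `m`. -/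
def HasConnectedPartition {V : Type*} [Fintype V] [DecidableEq V] (T : SimpleGraph V)
    (m : Multiset ℕ) : Prop :=
  ∃ P : Finpartition (Finset.univ : Finset V),
    (∀ B ∈ P.parts, (T.induce (B : Set V)).Connected) ∧
      P.parts.val.map Finset.card = m

/-- `T` is a CPET tree: a tree of maximum degree `4` with a connected partition of every type,
the types being the integer partitions of the number of vertices. -/
def IsCPET {V : Type*} [Fintype V] [DecidableEq V] (T : SimpleGraph V) [DecidableRel T.Adj] :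
    Prop :=
  T.IsTree ∧ T.maxDegree = 4 ∧
    ∀ q : Nat.Partition (Fintype.card V), HasConnectedPartition T q.parts

/-- the leaves adjacent to `v`: its neighbours of degree `1` -/
def leafNeighbors {V : Type*} [Fintype V] [DecidableEq V] (T : SimpleGraph V)
    [DecidableRel T.Adj] (v : V) : Finset V :=
  (T.neighborFinset v).filter (fun w => T.degree w = 1)

/-- the parent of a vertex of the spider (centre `0`, legs `1..15`, `16..27`, `28..29`, `30`) -/
def par (i : ℕ) : ℕ := if i = 0 ∨ i = 1 ∨ i = 16 ∨ i = 28 ∨ i = 30 then 0 else i - 1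

/-- the spider with legs of 15, 12, 2 and 1 vertices -/
def spider : SimpleGraph (Fin 31) where
  Adj a b := a ≠ b ∧ (par a = b ∨ par b = a)
  symm := ⟨fun _ _ h => ⟨h.1.symm, h.2.symm⟩⟩
  loopless := ⟨fun _ h => h.1 rfl⟩

instance : DecidableRel spider.Adj := fun a b =>
  inferInstanceAs (Decidable (a ≠ b ∧ (par a = b ∨ par b = a)))

/-! ### Packing -/

/-- can the parts in the list be packed into bins of the given capacities -/
def fits : List ℕ → ℕ → ℕ → ℕ → ℕ → Bool
  | [], _, _, _, _ => true
  | x :: xs, a, b, c, d =>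
    (Nat.ble x a && fits xs (a - x) b c d) || ((Nat.ble x b && fits xs a (b - x) c d) ||
      ((Nat.ble x c && fits xs a b (c - x) d) || (Nat.ble x d && fits xs a b c (d - x))))

/-- the multiset can be split into a central part and four groups fitting in the legs -/
def Ok (m : Multiset ℕ) : Prop :=
  ∃ (p : ℕ) (m1 m2 m3 m4 : Multiset ℕ), m = p ::ₘ (m1 + m2 + m3 + m4) ∧
    m1.sum ≤ 15 ∧ m2.sum ≤ 12 ∧ m3.sum ≤ 2 ∧ m4.sum ≤ 1

lemma fits_sound (l : List ℕ) : ∀ a b c d : ℕ, fits l a b c d = true →
    ∃ m1 m2 m3 m4 : Multiset ℕ, (l : Multiset ℕ) = m1 + m2 + m3 + m4 ∧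
      m1.sum ≤ a ∧ m2.sum ≤ b ∧ m3.sum ≤ c ∧ m4.sum ≤ d := by
  induction l with
  | nil => intro a b c d _; exact ⟨0, 0, 0, 0, by simp⟩
  | cons x xs ih =>
    intro a b c d h
    rw [fits] at h
    simp only [Bool.or_eq_true, Bool.and_eq_true, Nat.ble_eq] at h
    rcases h with ⟨hx, h⟩ | ⟨hx, h⟩ | ⟨hx, h⟩ | ⟨hx, h⟩
    · obtain ⟨m1, m2, m3, m4, e, h1, h2, h3, h4⟩ := ih _ _ _ _ h
      refine ⟨x ::ₘ m1, m2, m3, m4, ?_, by rw [Multiset.sum_cons]; omega, h2, h3, h4⟩
      rw [← Multiset.cons_coe, e]
      simp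
    · obtain ⟨m1, m2, m3, m4, e, h1, h2, h3, h4⟩ := ih _ _ _ _ h
      refine ⟨m1, x ::ₘ m2, m3, m4, ?_, h1, by rw [Multiset.sum_cons]; omega, h3, h4⟩
      rw [← Multiset.cons_coe, e]
      simp [Multiset.cons_add, Multiset.add_cons]
    · obtain ⟨m1, m2, m3, m4, e, h1, h2, h3, h4⟩ := ih _ _ _ _ h
      refine ⟨m1, m2, x ::ₘ m3, m4, ?_, h1, h2, by rw [Multiset.sum_cons]; omega, h4⟩
      rw [← Multiset.cons_coe, e]
      simp [Multiset.cons_add, Multiset.add_cons]
    · obtain ⟨m1, m2, m3, m4, e, h1, h2, h3, h4⟩ := ih _ _ _ _ h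
      refine ⟨m1, m2, m3, x ::ₘ m4, ?_, h1, h2, h3, by rw [Multiset.sum_cons]; omega⟩
      rw [← Multiset.cons_coe, e]
      simp [Multiset.cons_add, Multiset.add_cons]

/-- check of a complete partition: its head is the central part -/
def leaf : List ℕ → Bool
  | [] => false
  | _ :: xs => fits xs 15 12 2 1

/-- check all partitions extending `acc` by parts of size at least `mn` with sum `rem` -/
def chk : ℕ → ℕ → ℕ → List ℕ → Bool
  | 0, _, _, _ => false
  | f + 1, rem, mn, acc =>
    match rem with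
    | 0 => leaf acc
    | r + 1 =>
      if Nat.ble mn (r + 1) then
        chk f (r + 1 - mn) mn (mn :: acc) && chk f (r + 1) (mn + 1) acc
      else true

lemma leaf_sound (l : List ℕ) (h : leaf l = true) : Ok (l : Multiset ℕ) := by
  cases l with
  | nil => simp [leaf] at h
  | cons p xs =>
    obtain ⟨m1, m2, m3, m4, e, h1, h2, h3, h4⟩ := fits_sound xs _ _ _ _ h
    exact ⟨p, m1, m2, m3, m4, by rw [← Multiset.cons_coe, e], h1, h2, h3, h4⟩

lemma chk_sound : ∀ (f rem mn : ℕ) (acc : List ℕ), chk f rem mn acc = true → 1 ≤ mn →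
    ∀ s : Multiset ℕ, (∀ x ∈ s, mn ≤ x) → s.sum = rem → Ok (s + (acc : Multiset ℕ)) := by
  intro f
  induction f with
  | zero => intro rem mn acc h; simp [chk] at h
  | succ f ih =>
    intro rem mn acc h hmn s hs hsum
    rcases rem with _ | r
    · replace h : leaf acc = true := h
      have : s = 0 := by
        by_contra hne
        obtain ⟨x, hx⟩ := Multiset.exists_mem_of_ne_zero hne
        have h1 := hs x hx
        have h2 := Multiset.single_le_sum (fun _ _ => Nat.zero_le _) x hx
        omega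
      subst this
      rw [zero_add]
      exact leaf_sound acc h
    · replace h : (if Nat.ble mn (r + 1) then
        chk f (r + 1 - mn) mn (mn :: acc) && chk f (r + 1) (mn + 1) acc
        else true) = true := h
      by_cases hle : Nat.ble mn (r + 1) = true
      · rw [if_pos hle] at h
        simp only [Bool.and_eq_true] at h
        rw [Nat.ble_eq] at hle
        by_cases hm : mn ∈ s
        · obtain ⟨t, rfl⟩ := Multiset.exists_cons_of_mem hm
          have := ih _ _ _ h.1 hmn t (fun x hx => hs x (Multiset.mem_cons_of_mem hx)) (by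
            rw [Multiset.sum_cons] at hsum; omega)
          rw [← Multiset.cons_coe] at this
          rwa [Multiset.cons_add, ← Multiset.add_cons]
        · exact ih _ _ _ h.2 (by omega) s (fun x hx => by
            have h1 := hs x hx
            have h2 : x ≠ mn := by rintro rfl; exact hm hx
            omega) hsum
      · exfalso
        rw [Nat.ble_eq] at hle
        have hne : s ≠ 0 := by rintro rfl; simp at hsum
        obtain ⟨x, hx⟩ := Multiset.exists_mem_of_ne_zero hne
        have h1 := hs x hx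
        have h2 := Multiset.single_le_sum (fun _ _ => Nat.zero_le _) x hx
        omega

set_option maxRecDepth 100000 in
lemma chk_all : chk 70 31 1 [] = true := by decide +kernel

lemma all_ok (s : Multiset ℕ) (h : ∀ x ∈ s, 1 ≤ x) (hs : s.sum = 31) : Ok s := by
  have := chk_sound 70 31 1 [] chk_all le_rfl s h hs
  simpa using this

/-! ### The geometry of the spider -/

/-- an interval of labels -/
def J (a b : ℕ) : Finset (Fin 31) := univ.filter (fun v => a < (v : ℕ) ∧ (v : ℕ) ≤ b)

lemma mem_J {a b : ℕ} {v : Fin 31} : v ∈ J a b ↔ a < (v : ℕ) ∧ (v : ℕ) ≤ b := by simp [J]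

lemma card_J {a b : ℕ} (hb : b ≤ 30) : (J a b).card = b - a := by
  rw [← Nat.card_Ioc, ← card_map Fin.valEmbedding]
  congr 1
  ext x
  simp only [mem_map, mem_J, Fin.valEmbedding_apply, mem_Ioc]
  constructor
  · rintro ⟨v, hv, rfl⟩; exact hv
  · intro hx; exact ⟨⟨x, by omega⟩, hx, rfl⟩

lemma conn_of_par (B : Finset (Fin 31)) (r : Fin 31) (hr : r ∈ B)
    (h : ∀ v ∈ B, v ≠ r → ∃ w ∈ B, w < v ∧ spider.Adj v w) :
    (spider.induce (B : Set (Fin 31))).Connected := by
  rw [SimpleGraph.connected_iff_exists_forall_reachable]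
  refine ⟨⟨r, hr⟩, ?_⟩
  rintro ⟨v, hv⟩
  have key : ∀ (n : ℕ) (v : Fin 31) (hv : v ∈ B), (v : ℕ) = n →
      (spider.induce (B : Set (Fin 31))).Reachable ⟨r, hr⟩ ⟨v, hv⟩ := by
    intro n
    induction n using Nat.strong_induction_on with
    | _ n ih =>
      intro v hv hn
      by_cases hvr : v = r
      · subst hvr; exact SimpleGraph.Reachable.refl _
      · obtain ⟨w, hw, hwv, hadj⟩ := h v hv hvr
        have h1 := ih (w : ℕ) (by rw [← hn]; exact hwv) w hw rfl
        refine h1.trans (SimpleGraph.Adj.reachable ?_)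
        exact hadj.symm
  exact key _ v hv rfl

lemma adj_of_par {v w : Fin 31} (h : par v = w) (hv : (v : ℕ) ≠ 0) (hw : (w : ℕ) < v) :
    spider.Adj v w := by
  refine ⟨?_, Or.inl h⟩
  rintro rfl
  exact lt_irrefl _ hw

/-- `S` splits into connected blocks with sizes `m` -/
def Part (S : Finset (Fin 31)) (m : Multiset ℕ) : Prop :=
  ∃ P : Finset (Finset (Fin 31)), (∀ A ∈ P, ∀ B ∈ P, A ≠ B → Disjoint A B) ∧
    (∀ v, v ∈ S ↔ ∃ B ∈ P, v ∈ B) ∧
    (∀ B ∈ P, (spider.induce (B : Set (Fin 31))).Connected) ∧ P.val.map Finset.card = m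

lemma Part_empty : Part ∅ 0 := ⟨∅, by simp, by simp, by simp, by simp⟩

lemma nonempty_of_conn {B : Finset (Fin 31)}
    (hB : (spider.induce (B : Set (Fin 31))).Connected) : B.Nonempty := by
  obtain ⟨⟨x, hx⟩⟩ := hB.nonempty
  exact ⟨x, hx⟩

lemma Part_insert {S B : Finset (Fin 31)} {m : Multiset ℕ} (h : Part S m)
    (hB : (spider.induce (B : Set (Fin 31))).Connected) (hd : Disjoint B S) :
    Part (B ∪ S) (B.card ::ₘ m) := by
  obtain ⟨P, h1, h2, h3, h4⟩ := h
  have hdis : ∀ A ∈ P, Disjoint B A := by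
    intro A hA
    refine Finset.disjoint_of_subset_right ?_ hd
    intro v hv
    exact (h2 v).2 ⟨A, hA, hv⟩
  have hBP : B ∉ P := by
    intro hmem
    have := hdis B hmem
    rw [disjoint_self] at this
    obtain ⟨x, hx⟩ := nonempty_of_conn hB
    rw [this] at hx
    simp at hx
  refine ⟨insert B P, ?_, ?_, ?_, ?_⟩
  · intro A hA C hC hne
    rw [mem_insert] at hA hC
    rcases hA with rfl | hA <;> rcases hC with rfl | hC
    · exact absurd rfl hne
    · exact hdis C hC
    · exact (hdis A hA).symm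
    · exact h1 A hA C hC hne
  · intro v
    simp only [mem_union, mem_insert, exists_eq_or_imp, h2 v]
  · intro A hA
    rw [mem_insert] at hA
    rcases hA with rfl | hA
    · exact hB
    · exact h3 A hA
  · rw [insert_val_of_notMem hBP, Multiset.map_cons, h4]

/-- consecutive labels on a leg form a connected set -/
lemma conn_J {a b s e : ℕ} (hse : (s = 0 ∧ e = 15) ∨ (s = 15 ∧ e = 27) ∨ (s = 27 ∧ e = 29) ∨
    (s = 29 ∧ e = 30)) (h1 : s ≤ a) (h2 : a < b) (h3 : b ≤ e) :
    (spider.induce (J a b : Set (Fin 31))).Connected := by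
  have hb : b < 31 := by omega
  refine conn_of_par _ ⟨a + 1, by omega⟩ (mem_J.2 ⟨by simp, by simp; omega⟩) ?_
  intro v hv hne
  rw [mem_J] at hv
  have hne' : (v : ℕ) ≠ a + 1 := fun h => hne (Fin.ext h)
  have hpar : par v = v - 1 := by unfold par; rw [if_neg]; omega
  refine ⟨⟨v - 1, by omega⟩, mem_J.2 ⟨by simp; omega, by simp; omega⟩, ?_, ?_⟩
  · rw [Fin.lt_def]; simp; omega
  · exact adj_of_par (by simp [hpar]) (by omega) (by simp; omega)

lemma leg_part {s e : ℕ} (hse : (s = 0 ∧ e = 15) ∨ (s = 15 ∧ e = 27) ∨ (s = 27 ∧ e = 29) ∨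
    (s = 29 ∧ e = 30)) {S : Finset (Fin 31)} {m0 : Multiset ℕ} (h0 : Part S m0)
    (hd : ∀ v ∈ S, ¬ (s < (v : ℕ) ∧ (v : ℕ) ≤ e)) (m : Multiset ℕ) :
    (∀ x ∈ m, 1 ≤ x) → s + m.sum ≤ e → Part (J (e - m.sum) e ∪ S) (m + m0) := by
  induction m using Multiset.induction with
  | empty =>
    intro _ _
    have : J (e - (0 : Multiset ℕ).sum) e = ∅ := by
      ext v; simp [mem_J]
    rw [this]
    simpa using h0
  | cons x m ih =>
    intro hpos hsum
    rw [Multiset.sum_cons] at hsum
    have hx : 1 ≤ x := hpos x (Multiset.mem_cons_self _ _)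
    have h1 := ih (fun y hy => hpos y (Multiset.mem_cons_of_mem hy)) (by omega)
    have hc := conn_J (a := e - m.sum - x) (b := e - m.sum) hse (by omega) (by omega) (by omega)
    have h2 := Part_insert h1 hc (by
      rw [disjoint_left]
      intro v hv hv'
      rw [mem_J] at hv
      rw [mem_union, mem_J] at hv'
      rcases hv' with hv' | hv'
      · omega
      · exact hd v hv' ⟨by omega, by omega⟩)
    rw [card_J (by omega), show e - m.sum - (e - m.sum - x) = x by omega, ← union_assoc] at h2
    have e1 : J (e - m.sum - x) (e - m.sum) ∪ J (e - m.sum) e = J (e - (x ::ₘ m).sum) e := by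
      ext v
      rw [Multiset.sum_cons]
      simp only [mem_union, mem_J]
      omega
    rw [e1] at h2
    rwa [Multiset.cons_add]

lemma part_all (m : Multiset ℕ) (hpos : ∀ x ∈ m, 1 ≤ x) (hsum : m.sum = 31) :
    Part univ m := by
  obtain ⟨p, m1, m2, m3, m4, rfl, h1, h2, h3, h4⟩ := all_ok m hpos hsum
  have p1 := leg_part (Or.inl ⟨rfl, rfl⟩) Part_empty (by simp) m1
    (fun x hx => hpos x (by simp [hx])) (by omega)
  have p2 := leg_part (Or.inr (Or.inl ⟨rfl, rfl⟩)) p1 (by
    intro v hv; simp only [mem_union, mem_J, notMem_empty, or_false] at hv; omega) m2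
    (fun x hx => hpos x (by simp [hx])) (by omega)
  have p3 := leg_part (Or.inr (Or.inr (Or.inl ⟨rfl, rfl⟩))) p2 (by
    intro v hv; simp only [mem_union, mem_J, notMem_empty, or_false] at hv; omega) m3
    (fun x hx => hpos x (by simp [hx])) (by omega)
  have p4 := leg_part (Or.inr (Or.inr (Or.inr ⟨rfl, rfl⟩))) p3 (by
    intro v hv; simp only [mem_union, mem_J, notMem_empty, or_false] at hv; omega) m4
    (fun x hx => hpos x (by simp [hx])) (by omega)
  set S := J (30 - m4.sum) 30 ∪ (J (29 - m3.sum) 29 ∪ (J (27 - m2.sum) 27 ∪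
    (J (15 - m1.sum) 15 ∪ ∅))) with hS
  have hmS : ∀ v : Fin 31, v ∈ S ↔ ((30 - m4.sum < (v : ℕ) ∧ (v : ℕ) ≤ 30) ∨
      (29 - m3.sum < (v : ℕ) ∧ (v : ℕ) ≤ 29) ∨ (27 - m2.sum < (v : ℕ) ∧ (v : ℕ) ≤ 27) ∨
      (15 - m1.sum < (v : ℕ) ∧ (v : ℕ) ≤ 15)) := by
    intro v
    rw [hS]
    simp only [mem_union, mem_J, notMem_empty, or_false]
  simp only [Multiset.sum_cons, Multiset.sum_add] at hsum
  have hC : (spider.induce ((Sᶜ : Finset (Fin 31)) : Set (Fin 31))).Connected := by
    refine conn_of_par _ 0 (by rw [mem_compl, hmS]; simp) ?_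
    intro v hv hv0
    rw [mem_compl, hmS] at hv
    have hv0' : (v : ℕ) ≠ 0 := fun h => hv0 (Fin.ext h)
    by_cases hr : (v : ℕ) = 1 ∨ (v : ℕ) = 16 ∨ (v : ℕ) = 28 ∨ (v : ℕ) = 30
    · have hpar : par v = 0 := by unfold par; rw [if_pos (Or.inr hr)]
      refine ⟨0, by rw [mem_compl, hmS]; simp, ?_, adj_of_par (by simp [hpar]) hv0' ?_⟩
      · rw [Fin.lt_def]; simp; omega
      · simp; omega
    · have hpar : par v = v - 1 := by unfold par; rw [if_neg]; omega
      have hv1 := v.isLt
      refine ⟨⟨v - 1, by omega⟩, ?_, ?_, adj_of_par (by simp [hpar]) hv0' ?_⟩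
      · rw [mem_compl, hmS]
        simp only
        omega
      · rw [Fin.lt_def]; simp; omega
      · simp; omega
  have p5 := Part_insert p4 hC (by
    rw [disjoint_left]
    intro v hv hv'
    exact (mem_compl.1 hv) hv')
  have hcard : (Sᶜ : Finset (Fin 31)).card = p := by
    have e1 : S.card = m1.sum + m2.sum + m3.sum + m4.sum := by
      rw [hS, card_union_of_disjoint, card_union_of_disjoint, card_union_of_disjoint,
        card_union_of_disjoint, card_J (by omega), card_J (by omega), card_J (by omega),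
        card_J (by omega), card_empty]
      · omega
      · simp
      all_goals
        rw [disjoint_left]
        intro v hv hv'
        simp only [mem_union, mem_J, notMem_empty, or_false] at hv hv'
        omega
    rw [card_compl, Fintype.card_fin, e1]
    omega
  rw [hcard] at p5
  have e2 : Sᶜ ∪ S = univ := by
    ext v; simp only [mem_union, mem_compl, mem_univ, iff_true]; tauto
  rw [e2] at p5
  convert p5 using 2
  simp only [add_zero]
  abel

lemma Part.toHas {m : Multiset ℕ} (h : Part univ m) : HasConnectedPartition spider m := by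
  obtain ⟨P, h1, h2, h3, h4⟩ := h
  refine ⟨⟨P, ?_, ?_, ?_⟩, h3, h4⟩
  · rw [Finset.supIndep_iff_pairwiseDisjoint]
    intro A hA B hB hne
    exact h1 A hA B hB hne
  · ext v
    simp only [mem_sup, id, mem_univ, iff_true]
    exact (h2 v).1 (mem_univ v)
  · intro hbot
    have := nonempty_of_conn (h3 _ hbot)
    simp at this

lemma spider_connected : spider.Connected := by
  have h := conn_of_par univ 0 (mem_univ _) (by
    intro v _ hv0
    have hv0' : (v : ℕ) ≠ 0 := fun h => hv0 (Fin.ext h)
    have hv1 := v.isLt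
    by_cases hr : (v : ℕ) = 1 ∨ (v : ℕ) = 16 ∨ (v : ℕ) = 28 ∨ (v : ℕ) = 30
    · have hpar : par v = 0 := by unfold par; rw [if_pos (Or.inr hr)]
      refine ⟨0, mem_univ _, ?_, adj_of_par (by simp [hpar]) hv0' ?_⟩
      · rw [Fin.lt_def]; simp; omega
      · simp; omega
    · have hpar : par v = v - 1 := by unfold par; rw [if_neg]; omega
      refine ⟨⟨v - 1, by omega⟩, mem_univ _, ?_, adj_of_par (by simp [hpar]) hv0' ?_⟩
      · rw [Fin.lt_def]; simp; omega
      · simp; omega)
  rw [coe_univ] at h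
  exact (SimpleGraph.induceUnivIso spider).connected_iff.mp h

/-- There is a CPET tree (on 31 vertices) in which every vertex of degree `4` is adjacent to at
most one leaf. -/
theorem result : ∃ T : SimpleGraph (Fin 31), ∃ _ : DecidableRel T.Adj,
    IsCPET T ∧ ∀ v : Fin 31, T.degree v = 4 → (leafNeighbors T v).card ≤ 1 := by
  refine ⟨spider, inferInstance, ⟨?_, by decide +kernel, ?_⟩, by decide +kernel⟩
  · rw [SimpleGraph.isTree_iff_connected_and_card]
    refine ⟨spider_connected, ?_⟩
    rw [Nat.card_eq_fintype_card, Nat.card_eq_fintype_card, ← SimpleGraph.edgeFinset_card]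
    decide +kernel
  · intro q
    exact (part_all q.parts (fun x hx => q.parts_pos hx)
      (q.parts_sum.trans (Fintype.card_fin 31))).toHas

end Pool.Agent.Results.MP_6c5f5a_co.OneLeaf
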